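import Pool.Agent.CBG.StmtsA

/-!
# Squad CBG, row UNI

Problem MP_148648_gt.  Uniformity in the parameter of the torus.
-/

set_option autoImplicit false
set_option maxSynthPendingDepth 3

open scoped Manifold ContDiff Topology
open Set Filter MeasureTheory

namespace Pool.Agent.CBG.H26

open Pool.Agent.CBG

theorem pos_near {n : ℕ} {H : ℝ × ℝ → Ed n → Bil (Ed n)} {t : ℝ × ℝ}
    (hc : ContinuousAt (fun q : (ℝ × ℝ) × Ed n => H q.1 q.2) (t, 0))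
    (hp : ∀ v : Ed n, v ≠ 0 → 0 < H t 0 v v) :
    ∀ᶠ q : (ℝ × ℝ) × Ed n in 𝓝 (t, 0), ∀ v : Ed n, v ≠ 0 → 0 < H q.1 q.2 v v := by
  have h1 : ∀ᶠ q : (ℝ × ℝ) × Ed n in 𝓝 (t, 0), ∀ v ∈ Metric.sphere (0 : Ed n) 1,
      0 < H q.1 q.2 v v := by
    refine (isCompact_sphere (0 : Ed n) 1).eventually_forall_of_forall_eventually ?_
    intro v hv
    have hv0 : v ≠ 0 := by
      intro h0
      rw [h0, mem_sphere_zero_iff_norm, norm_zero] at hv
      exact zero_ne_one hv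
    have h2 : ContinuousAt (fun z : ((ℝ × ℝ) × Ed n) × Ed n => H z.1.1 z.1.2 z.2 z.2)
        ((t, 0), v) := by
      have h3 : ContinuousAt (fun z : ((ℝ × ℝ) × Ed n) × Ed n => H z.1.1 z.1.2) ((t, 0), v) :=
        ContinuousAt.comp (f := fun z : ((ℝ × ℝ) × Ed n) × Ed n => z.1)
          (g := fun q : (ℝ × ℝ) × Ed n => H q.1 q.2) hc continuousAt_fst
      exact (h3.clm_apply continuousAt_snd).clm_apply continuousAt_snd
    exact h2.eventually (lt_mem_nhds (hp v hv0))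
  filter_upwards [h1] with q hq v hv
  have hn : 0 < ‖v‖ := norm_pos_iff.2 hv
  have h4 : 0 < H q.1 q.2 (‖v‖⁻¹ • v) (‖v‖⁻¹ • v) := by
    refine hq _ ?_
    rw [mem_sphere_zero_iff_norm, norm_smul, norm_inv, norm_norm, inv_mul_cancel₀ hn.ne']
  rw [map_smul, map_smul, smul_apply, smul_eq_mul, smul_eq_mul] at h4
  have h5 : 0 < ‖v‖⁻¹ := inv_pos.2 hn
  exact pos_of_mul_pos_right (pos_of_mul_pos_right h4 h5.le) h5.le

theorem uni (_ : Mu0Stmt) : UniStmt := by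
  intro n H X D
  have hK : IsCompact (Icc (0 : ℝ) 1 ×ˢ Icc (0 : ℝ) 1) := isCompact_Icc.prod isCompact_Icc
  have h1 : ∀ᶠ y in 𝓝 (0 : Ed n), ∀ t ∈ Icc (0 : ℝ) 1 ×ˢ Icc (0 : ℝ) 1,
      ContinuousAt (fun q : (ℝ × ℝ) × Ed n => H q.1 q.2) (t, y) ∧
        ∀ v : Ed n, v ≠ 0 → 0 < H t y v v := by
    refine hK.eventually_forall_of_forall_eventually ?_
    intro t _
    have h2 : ∀ᶠ q : (ℝ × ℝ) × Ed n in 𝓝 (t, 0),
        ContDiffAt ℝ 1 (fun q : (ℝ × ℝ) × Ed n => H q.1 q.2) q :=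
      ((D.smooth t).of_le (by exact_mod_cast le_top)).eventually (by simp)
    have h3 := pos_near (D.smooth t).continuousAt (D.pos t)
    have h4 : Tendsto (fun z : Ed n × (ℝ × ℝ) => (z.2, z.1)) (𝓝 (0, t)) (𝓝 (t, 0)) :=
      (continuous_snd.prodMk continuous_fst).tendsto' _ _ rfl
    filter_upwards [h4.eventually h2, h4.eventually h3] with z hz1 hz2
    exact ⟨hz1.continuousAt, hz2⟩
  filter_upwards [h1] with y hy
  have hper : ∀ (m k : ℤ) (t : ℝ × ℝ), H (t + ((m : ℝ), (k : ℝ))) y = H t y := by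
    intro m k t
    have p1 : Function.Periodic (fun t => H t y) ((1, 0) : ℝ × ℝ) := fun t => D.per1 t y
    have p2 : Function.Periodic (fun t => H t y) ((0, 1) : ℝ × ℝ) := fun t => D.per2 t y
    have e : t + ((m : ℝ), (k : ℝ)) = t + m • ((1, 0) : ℝ × ℝ) + k • ((0, 1) : ℝ × ℝ) := by
      ext <;> simp
    rw [e]
    exact ((p2.zsmul k) _).trans ((p1.zsmul m) t)
  have hfr : ∀ t : ℝ × ℝ, ((Int.fract t.1, Int.fract t.2) : ℝ × ℝ) ∈
      Icc (0 : ℝ) 1 ×ˢ Icc (0 : ℝ) 1 := fun t =>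
    ⟨⟨Int.fract_nonneg _, (Int.fract_lt_one _).le⟩, ⟨Int.fract_nonneg _, (Int.fract_lt_one _).le⟩⟩
  have hdec : ∀ t : ℝ × ℝ, t = (Int.fract t.1, Int.fract t.2) +
      (((⌊t.1⌋ : ℤ) : ℝ), ((⌊t.2⌋ : ℤ) : ℝ)) := by
    intro t
    ext
    · exact (Int.fract_add_floor t.1).symm
    · exact (Int.fract_add_floor t.2).symm
  refine ⟨fun t v hv => ?_, ?_⟩
  · have h5 := (hy _ (hfr t)).2 v hv
    rw [hdec t, hper]
    exact h5
  · rw [continuous_iff_continuousAt]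
    intro t
    have h6 := (hy _ (hfr t)).1
    have h7 : ContinuousAt (fun s : ℝ × ℝ => H s y) (Int.fract t.1, Int.fract t.2) :=
      ContinuousAt.comp (f := fun s : ℝ × ℝ => (s, y))
        (g := fun q : (ℝ × ℝ) × Ed n => H q.1 q.2) h6
        (continuous_id.prodMk continuous_const).continuousAt
    have h8 : (fun s : ℝ × ℝ => H s y) =
        fun s : ℝ × ℝ => H (s - (((⌊t.1⌋ : ℤ) : ℝ), ((⌊t.2⌋ : ℤ) : ℝ))) y := by
      funext s
      rw [← hper ⌊t.1⌋ ⌊t.2⌋ (s - (((⌊t.1⌋ : ℤ) : ℝ), ((⌊t.2⌋ : ℤ) : ℝ))), sub_add_cancel]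
    rw [h8]
    have h9 : t - (((⌊t.1⌋ : ℤ) : ℝ), ((⌊t.2⌋ : ℤ) : ℝ)) = (Int.fract t.1, Int.fract t.2) := rfl
    refine ContinuousAt.comp (f := fun s : ℝ × ℝ => s - (((⌊t.1⌋ : ℤ) : ℝ), ((⌊t.2⌋ : ℤ) : ℝ)))
      (g := fun s : ℝ × ℝ => H s y) ?_ (continuous_id.sub continuous_const).continuousAt
    rw [h9]
    exact h7

end Pool.Agent.CBG.H26
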